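import Pool.Agent.R988.Loc2

/-! One energy window on the torus: many eigenvalues, few localised eigenvectors. -/

set_option autoImplicit false
set_option linter.unusedVariables false

open scoped BigOperators ComplexConjugate Topology
open Set MeasureTheory Filter

namespace Pool.Agent.H189.Loc

open Pool.Agent.R988 Pool.Agent.R988.Tor
open Pool.Agent.H4R2.LO (Zd)
open Pool.Agent.TH794.HK (ph Tg)
open Pool.Agent.TH794.QE (Rs RegE)

theorem var_le (b : ℝ) (hb : 0 < b) (μ : Measure ℝ) [IsProbabilityMeasure μ]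
    (hμ : ∀ᵐ s ∂μ, |s| ≤ b) (M V : ℝ) (hM : ∫ s, s ∂μ = M) (hV : ∫ s, (s - M) ^ 2 ∂μ = V) :
    V ≤ 4 * b ^ 2 := by
  have hMb : |M| ≤ b := by
    rw [← hM]
    have h1 := norm_integral_le_of_norm_le_const (μ := μ) (f := fun s : ℝ => s) (C := b) (by
      filter_upwards [hμ] with s hs
      rwa [Real.norm_eq_abs])
    rw [Real.norm_eq_abs, probReal_univ, mul_one] at h1
    exact h1
  have h2 := norm_integral_le_of_norm_le_const (μ := μ) (f := fun s : ℝ => (s - M) ^ 2)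
    (C := 4 * b ^ 2) (by
      filter_upwards [hμ] with s hs
      rw [Real.norm_eq_abs, abs_pow]
      have h3 : |s - M| ≤ 2 * b := (abs_sub _ _).trans (by linarith)
      calc |s - M| ^ 2 ≤ (2 * b) ^ 2 := by gcongr
        _ = 4 * b ^ 2 := by ring)
  rw [hV, probReal_univ, mul_one] at h2
  exact (le_abs_self V).trans h2

theorem exp_count (d : ℕ) (X Y : ℝ) (hX : 1 ≤ X) (hY : (2 * d + 3) * X ≤ Y) (N : ℕ)
    (hN : (N : ℝ) ≤ Real.exp X) :
    ((N : ℝ) + 1) ^ (d + 1) * Real.exp (-Y) ≤ Real.exp (-X) := by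
  have h1 : (N : ℝ) + 1 ≤ Real.exp (2 * X) := by
    have h2 : Real.exp (2 * X) = Real.exp X * Real.exp X := by
      rw [← Real.exp_add]
      ring_nf
    have h3 : 2 ≤ Real.exp X := by
      have := Real.add_one_le_exp X
      linarith
    rw [h2]
    nlinarith
  calc ((N : ℝ) + 1) ^ (d + 1) * Real.exp (-Y) ≤ (Real.exp (2 * X)) ^ (d + 1) * Real.exp (-Y) := by
        gcongr
    _ = Real.exp ((d + 1 : ℕ) * (2 * X) + -Y) := by
        rw [Real.exp_add, Real.exp_nat_mul]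
    _ ≤ Real.exp (-X) := by
        rw [Real.exp_le_exp]
        push_cast
        linarith

theorem window (d : ℕ) (hd : 3 ≤ d) (κ : ℝ) (hκ : 0 < κ) (hκ1 : κ ≤ 1) : ∃ m1 : ℝ, 0 < m1 ∧
    ∀ b v ε τ : ℝ, 0 < b → 0 < v → 0 < ε → 0 < τ → ∃ lam0 : ℝ, 0 < lam0 ∧ lam0 ≤ 1 ∧
      ∀ (μ : Measure ℝ), IsProbabilityMeasure μ → (∀ᵐ s ∂μ, |s| ≤ b) →
      ∀ M V : ℝ, ∫ s, s ∂μ = M → ∫ s, (s - M) ^ 2 ∂μ = V → v ≤ V →
      ∀ lam : ℝ, 0 < lam → lam ≤ lam0 →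
      ∃ G : Set (Zd d → ℝ), MeasurableSet G ∧
        1 - Real.exp (-lam ^ (-(1 / 103) : ℝ)) ≤
          (Measure.infinitePi fun _ : Zd d => μ).real G ∧
        ∀ ω ∈ G, ∀ (L : ℕ) [NeZero L], lam ^ (-7 : ℝ) ≤ L →
          (L : ℝ) ≤ Real.exp (lam ^ (-(1 / 103) : ℝ)) →
        ∀ (ι : Type) [Fintype ι] [DecidableEq ι] (ψ : ι → TT d L → ℂ) (E : ι → ℝ),
          EB (fun x => 2 * d + lam * ω (em x)) ψ E →
        ∀ e : ℝ, |2 * (d : ℝ) + lam * M - e| ≤ 2 * d - κ →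
          m1 / 16 * lam ^ (253 / 125 : ℝ) * (Fintype.card (TT d L)) ≤
            ((Finset.univ.filter fun j => |E j - e| ≤ lam ^ (253 / 125 : ℝ)).card : ℝ) ∧
          ∀ i : Fin d, (((Finset.univ.filter fun j => |E j - e| ≤ lam ^ (253 / 125 : ℝ) ∧
            ∃ y : ZMod L, ε ≤ ∑ x : TT d L, if |((x i - y).valMinAbs : ℝ)| ≤
              lam ^ (-(181 / 90) : ℝ) then ‖ψ j x‖ ^ 2 else 0).card : ℝ)) * ε ^ 2 ≤
            16 * lam ^ (253 / 125 : ℝ) * (Fintype.card (TT d L)) * τ := by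
  have hdR : (3 : ℝ) ≤ d := by exact_mod_cast hd
  obtain ⟨γ0, γ1, hbase⟩ := base d (by omega)
  obtain ⟨h1, ⟨m1, hm1, h2⟩, h3⟩ := hbase κ hκ hκ1
  obtain ⟨C0, hC0, hup⟩ := up d (by omega) κ hκ hκ1
  refine ⟨m1, hm1, fun b v ε τ hb hv hε hτ => ?_⟩
  obtain ⟨θ, hθ⟩ : ∃ θ, θ = τ / (16 * C0) := ⟨_, rfl⟩
  have hθ0 : 0 < θ := by rw [hθ]; positivity
  obtain ⟨K, hK⟩ : ∃ K, K = 16 * C0 ^ 3 / (τ * (θ ^ 2 * m1)) := ⟨_, rfl⟩
  have hK0 : 0 < K := by rw [hK]; positivity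
  obtain ⟨c0, hc0, h4⟩ := h3 b v K hb hv hK0.le
  obtain ⟨t0, ht0, ht01, hev⟩ := ev_extract (P := fun t : ℝ =>
    (8 / τ * t ^ (1 / 200 : ℝ) ≤ 1 ∧ 10 / m1 * t ^ (1 / 200 : ℝ) ≤ 1) ∧
    (8 * (30720 * d) / τ * t ^ (116 / 125 : ℝ) ≤ 1 ∧
      10 * (30720 * d) / m1 * t ^ (116 / 125 : ℝ) ≤ 1) ∧
    16 * K * b ^ 2 * t ^ (2 / 1125 : ℝ) ≤ 1 ∧
    (2 * Real.pi) ^ 2 * (1 + 4 * C0 / τ) ^ 2 / (K * v) * t ^ (1247 / 125 : ℝ) ≤ 1 ∧
    8 * t ^ (1 / 1000 : ℝ) ≤ 1 ∧ (2 * d + 3) * t ^ (2 / 10403 : ℝ) ≤ 1 ∧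
    6 * t ^ (7 : ℝ) ≤ 1) (by
    filter_upwards [ev1 (8 / τ) (1 / 200) (by norm_num), ev1 (10 / m1) (1 / 200) (by norm_num),
      ev1 (8 * (30720 * d) / τ) (116 / 125) (by norm_num),
      ev1 (10 * (30720 * d) / m1) (116 / 125) (by norm_num),
      ev1 (16 * K * b ^ 2) (2 / 1125) (by norm_num),
      ev1 ((2 * Real.pi) ^ 2 * (1 + 4 * C0 / τ) ^ 2 / (K * v)) (1247 / 125) (by norm_num),
      ev1 8 (1 / 1000) (by norm_num), ev1 (2 * d + 3) (2 / 10403) (by norm_num),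
      ev1 6 7 (by norm_num)] with t a1 a2 a3 a4 a5 a6 a7 a8 a9
    exact ⟨⟨a1, a2⟩, ⟨a3, a4⟩, a5, a6, a7, a8, a9⟩)
  refine ⟨min t0 c0, lt_min ht0 hc0, (min_le_left _ _).trans ht01, ?_⟩
  intro μ hμp hμb M V hM hV hvV lam hlam hlam0
  have hV4 := var_le b hb μ hμb M V hM hV
  have hlam1 : lam ≤ 1 := (hlam0.trans (min_le_left _ _)).trans ht01
  obtain ⟨⟨a1, a2⟩, ⟨a3, a4⟩, a5, a6, a7, a8, a9⟩ := hev lam hlam (hlam0.trans (min_le_left _ _))
  obtain ⟨G, hG, hP, hGp⟩ := h4 lam hlam (hlam0.trans (min_le_right _ _)) μ hμp hμb M V hM hV hvV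
  have hpw : ∀ p q : ℝ, lam ^ p * lam ^ q = lam ^ (p + q) := fun p q =>
    (Real.rpow_add hlam p q).symm
  have hpos : ∀ p : ℝ, 0 < lam ^ p := fun p => Real.rpow_pos_of_pos hlam p
  have hone : ∀ p : ℝ, p ≤ 0 → 1 ≤ lam ^ p := fun p hp =>
    Real.one_le_rpow_of_pos_of_le_one_of_nonpos hlam hlam1 hp
  have hle1 : ∀ p : ℝ, 0 ≤ p → lam ^ p ≤ 1 := fun p hp =>
    Real.rpow_le_one hlam.le hlam1 hp
  obtain ⟨X, hX⟩ : ∃ X, X = lam ^ (-(1 / 103) : ℝ) := ⟨_, rfl⟩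
  obtain ⟨Y, hY⟩ : ∃ Y, Y = lam ^ (-(1 / 101) : ℝ) := ⟨_, rfl⟩
  have hX1 : 1 ≤ X := by rw [hX]; exact hone _ (by norm_num)
  have hXY : (2 * d + 3) * X ≤ Y := by
    have e1 : X = lam ^ (2 / 10403 : ℝ) * Y := by
      rw [hX, hY, hpw]
      norm_num
    have hY0 : 0 < Y := by rw [hY]; exact hpos _
    calc (2 * (d : ℝ) + 3) * X = ((2 * d + 3) * lam ^ (2 / 10403 : ℝ)) * Y := by
          rw [e1]
          ring
      _ ≤ 1 * Y := by gcongr
      _ = Y := one_mul Y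
  have hXY1 : X ≤ Y := by
    have : (1 : ℝ) * X ≤ (2 * d + 3) * X := by
      gcongr
      linarith
    linarith
  rw [← hY] at hP
  obtain ⟨G', hG', hP', hGp'⟩ := Tor.union μ G hG (Real.exp (-Y)) (Real.exp_pos _).le hP
    ⌊Real.exp X⌋₊
  have hNX : ((⌊Real.exp X⌋₊ : ℕ) : ℝ) ≤ Real.exp X := Nat.floor_le (Real.exp_pos _).le
  refine ⟨G', hG', ?_, ?_⟩
  · rw [← hX]
    have := exp_count d X Y hX1 hXY _ hNX
    linarith
  intro ω hω L _ hL1 hL2 ι _ _ ψ E hEB e he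
  rw [← hX] at hL2
  obtain ⟨hωG, hωs⟩ := hGp' ω hω
  have hLN : L ≤ ⌊Real.exp X⌋₊ := Nat.le_floor hL2
  have hωb := (hGp ω hωG).1
  -- the box
  have hL6 : (6 : ℝ) ≤ L := by
    refine le_trans ?_ hL1
    rw [Real.rpow_neg hlam.le, le_inv_comm₀ (by norm_num) (hpos _)]
    rw [inv_eq_one_div, le_div_iff₀ (by norm_num)]
    linarith
  have hL0 : (0 : ℝ) < L := by linarith
  have hL6' : 6 ≤ L := by exact_mod_cast hL6
  obtain ⟨c, hc⟩ : ∃ c : Zd d, c = fun _ => ((L / 2 : ℕ) : ℤ) := ⟨_, rfl⟩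
  obtain ⟨ρ, hρ⟩ : ∃ ρ : ℝ, ρ = L / 3 := ⟨_, rfl⟩
  have hc1 : ∀ i, ρ ≤ c i ∧ ρ + 1 ≤ L - c i := by
    intro i
    rw [hc, hρ]
    have e1 : 2 * (L / 2) ≤ L := Nat.mul_div_le L 2
    have e2 : L ≤ 2 * (L / 2) + 1 := by omega
    have e3 : 2 * ((L / 2 : ℕ) : ℝ) ≤ L := by exact_mod_cast e1
    have e4 : (L : ℝ) ≤ 2 * ((L / 2 : ℕ) : ℝ) + 1 := by exact_mod_cast e2
    constructor
    · rw [Int.cast_natCast]
      linarith
    · rw [Int.cast_natCast]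
      linarith
  have hcn : ‖c‖ ≤ Real.exp Y := by
    refine le_trans ?_ (hL2.trans (Real.exp_le_exp.2 hXY1))
    refine (pi_norm_le_iff_of_nonneg hL0.le).2 fun i => ?_
    rw [hc]
    have e1 : L / 2 ≤ L := Nat.div_le_self L 2
    have e3 : ((L / 2 : ℕ) : ℝ) ≤ L := by exact_mod_cast e1
    simp only [Int.norm_natCast]
    exact e3
  obtain ⟨w, hw⟩ : ∃ w, w = lam ^ (253 / 125 : ℝ) := ⟨_, rfl⟩
  have hw0 : 0 < w := by rw [hw]; exact hpos _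
  have hw1 : w ≤ 1 := by rw [hw]; exact hle1 _ (by norm_num)
  have hreg : RegE d κ (2 * d + lam * M - e) := Or.inr ⟨hd, by linarith⟩
  obtain ⟨hl0, hl1, hg1, hg10⟩ := h1 _ hreg
  have hm := h2 _ hreg he
  have hC := hup _ _ hreg hl0
  have hinvL : 1 / (L : ℝ) ≤ lam ^ (7 : ℝ) := by
    rw [Real.rpow_neg hlam.le] at hL1
    rw [one_div, inv_le_comm₀ hL0 (hpos _)]
    exact hL1
  have herr : 10240 * d * (w⁻¹) ^ 3 / ρ ≤ 30720 * d * lam ^ (116 / 125 : ℝ) := by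
    have e1 : (w⁻¹) ^ 3 = lam ^ (-(759 / 125) : ℝ) := by
      rw [hw, ← Real.rpow_neg hlam.le, ← Real.rpow_natCast, ← Real.rpow_mul hlam.le]
      norm_num
    have e2 : lam ^ (116 / 125 : ℝ) = lam ^ (-(759 / 125) : ℝ) * lam ^ (7 : ℝ) := by
      rw [hpw]
      norm_num
    rw [e1, e2, hρ]
    calc 10240 * (d : ℝ) * lam ^ (-(759 / 125) : ℝ) / (L / 3) =
        30720 * d * lam ^ (-(759 / 125) : ℝ) * (1 / L) := by
          field_simp
          norm_num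
      _ ≤ 30720 * d * lam ^ (-(759 / 125) : ℝ) * lam ^ (7 : ℝ) := by
          gcongr
      _ = _ := by ring
  have hb1 : lam ^ (1 / 200 : ℝ) ≤ τ / 8 := by
    have : 8 / τ * lam ^ (1 / 200 : ℝ) = lam ^ (1 / 200 : ℝ) / (τ / 8) := by
      field_simp
    rw [this, div_le_one (by positivity)] at a1
    exact a1
  have hb2 : lam ^ (1 / 200 : ℝ) ≤ m1 / 10 := by
    have : 10 / m1 * lam ^ (1 / 200 : ℝ) = lam ^ (1 / 200 : ℝ) / (m1 / 10) := by
      field_simp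
    rw [this, div_le_one (by positivity)] at a2
    exact a2
  have hb3 : 30720 * d * lam ^ (116 / 125 : ℝ) ≤ τ / 8 := by
    have : 8 * (30720 * d) / τ * lam ^ (116 / 125 : ℝ) =
        (30720 * d * lam ^ (116 / 125 : ℝ)) / (τ / 8) := by
      field_simp
    rw [this, div_le_one (by positivity)] at a3
    exact a3
  have hb4 : 30720 * d * lam ^ (116 / 125 : ℝ) ≤ m1 / 10 := by
    have : 10 * (30720 * d) / m1 * lam ^ (116 / 125 : ℝ) =
        (30720 * d * lam ^ (116 / 125 : ℝ)) / (m1 / 10) := by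
      field_simp
    rw [this, div_le_one (by positivity)] at a4
    exact a4
  have hV0 : 0 < V := by linarith
  have hmain := det (L := L) (by omega : 0 < d) (ω := ω) lam b hlam hωb c ρ (by rw [hρ]; linarith)
    hc1 e w (lam ^ 2 * V) hw0 hw1 (by positivity) γ0 γ1 (2 * d + lam * M - e) C0 m1 K
    (lam ^ (1 / 200 : ℝ)) hm1 ((Complex.im_le_norm _).trans hC) hm hg10 hK0
    (fun η hη s u hu p hp => by
      have hηr : lam ^ (81 / 40 : ℝ) ≤ η ∧ η ≤ lam ^ (161 / 80 : ℝ) := by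
        have q1 : lam ^ (81 / 40 : ℝ) ≤ w / 8 := by
          have q2 : lam ^ (81 / 40 : ℝ) = lam ^ (1 / 1000 : ℝ) * w := by
            rw [hw, hpw]
            norm_num
          rw [q2]
          nlinarith
        have q3 : w ≤ lam ^ (161 / 80 : ℝ) := by
          rw [hw]
          exact Real.rpow_le_rpow_of_exponent_ge hlam hlam1 (by norm_num)
        rcases hη with hη | hη
        · rw [hη]
          exact ⟨by linarith, q3⟩
        · rw [hη]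
          exact ⟨q1, by linarith⟩
      exact (hGp _ (hωs L hLN s)).2 c (by rw [← hY]; exact hcn) e ⟨hreg, he⟩ η hηr.1 hηr.2 u hu
        p hp)
    ε θ τ (lam ^ (-(181 / 90) : ℝ)) hε hθ0 hτ (by
      rw [hθ]
      exact le_of_eq (by field_simp))
    (by
      rw [hK]
      exact le_of_eq (by field_simp))
    (by linarith) (by linarith)
    (by
      have q1 : w * lam ^ 2 * (lam ^ (-(181 / 90) : ℝ)) ^ 2 = lam ^ (2 / 1125 : ℝ) := by
        rw [hw, ← Real.rpow_natCast lam 2, ← Real.rpow_natCast _ 2, ← Real.rpow_mul hlam.le, hpw,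
          hpw]
        norm_num
      calc K * (w * (lam ^ 2 * V)) * (2 * lam ^ (-(181 / 90) : ℝ)) ^ 2 =
          4 * K * V * (w * lam ^ 2 * (lam ^ (-(181 / 90) : ℝ)) ^ 2) := by ring
        _ = 4 * K * V * lam ^ (2 / 1125 : ℝ) := by rw [q1]
        _ ≤ 4 * K * (4 * b ^ 2) * lam ^ (2 / 1125 : ℝ) := by gcongr
        _ = 16 * K * b ^ 2 * lam ^ (2 / 1125 : ℝ) := by ring
        _ ≤ 1 := a5)
    (by
      have q1 : (2 * Real.pi) ^ 2 * (1 + 4 * C0 / τ) ^ 2 * lam ^ (1247 / 125 : ℝ) ≤ K * v := by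
        have : (2 * Real.pi) ^ 2 * (1 + 4 * C0 / τ) ^ 2 / (K * v) * lam ^ (1247 / 125 : ℝ) =
            (2 * Real.pi) ^ 2 * (1 + 4 * C0 / τ) ^ 2 * lam ^ (1247 / 125 : ℝ) / (K * v) := by
          ring
        rw [this, div_le_one (by positivity)] at a6
        exact a6
      have q2 : lam ^ (-14 : ℝ) ≤ (L : ℝ) ^ 2 := by
        have : lam ^ (-14 : ℝ) = (lam ^ (-7 : ℝ)) ^ 2 := by
          rw [← Real.rpow_natCast, ← Real.rpow_mul hlam.le]
          norm_num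
        rw [this]
        have := (hpos (-7)).le
        gcongr
      have q3 : lam ^ (1247 / 125 : ℝ) * (lam ^ (-14 : ℝ) * (w * lam ^ 2)) = 1 := by
        rw [hw, ← Real.rpow_natCast lam 2, hpw, hpw, hpw]
        norm_num
      calc (2 * Real.pi) ^ 2 * (1 + 4 * C0 / τ) ^ 2 =
          ((2 * Real.pi) ^ 2 * (1 + 4 * C0 / τ) ^ 2 * lam ^ (1247 / 125 : ℝ)) *
            (lam ^ (-14 : ℝ) * (w * lam ^ 2)) := by
              rw [mul_assoc, q3, mul_one]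
        _ ≤ (K * v) * (lam ^ (-14 : ℝ) * (w * lam ^ 2)) := by
              have := (hpos (-14)).le
              gcongr
        _ ≤ (K * V) * ((L : ℝ) ^ 2 * (w * lam ^ 2)) := by
              gcongr
        _ = _ := by ring)
    hEB
  rw [hw] at hmain
  exact hmain

end Pool.Agent.H189.Loc
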