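import Mathlib

/-! From energy windows to energy intervals. -/

set_option autoImplicit false

open scoped BigOperators

namespace Pool.Agent.H189.Loc

/-- lower bound for the number of points of an interval from the windows in it -/
theorem lower {ι : Type} [Fintype ι] (E : ι → ℝ) (w A α β : ℝ) (hw : 0 < w)
    (hA : 0 ≤ A) (hαβ : α + 3 * w ≤ β)
    (h : ∀ e, α ≤ e → e ≤ β → A * w ≤ ((Finset.univ.filter fun j => |E j - e| ≤ w).card : ℝ)) :
    A / 6 * (β - α) ≤ ((Finset.univ.filter fun j => α ≤ E j ∧ E j ≤ β).card : ℝ) := by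
  classical
  obtain ⟨n, hn⟩ : ∃ n : ℕ, n = ⌊(β - α) / (3 * w)⌋₊ := ⟨_, rfl⟩
  have h1 : (n : ℝ) * (3 * w) ≤ β - α := by
    have h2 : (n : ℝ) ≤ (β - α) / (3 * w) := by
      rw [hn]
      exact Nat.floor_le (div_nonneg (by linarith) (by linarith))
    rwa [le_div_iff₀ (by linarith)] at h2
  have h3 : β - α ≤ (n + 1) * (3 * w) := by
    have h4 : (β - α) / (3 * w) < n + 1 := by
      rw [hn]
      exact Nat.lt_floor_add_one _
    rw [div_lt_iff₀ (by linarith)] at h4
    exact h4.le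
  have h5 : (1 : ℝ) ≤ n := by
    have h6 : 1 ≤ n := by
      rw [hn]
      refine Nat.le_floor ?_
      rw [le_div_iff₀ (by linarith)]
      push_cast
      linarith
    exact_mod_cast h6
  have h7 : β - α ≤ 6 * (n * w) := by nlinarith
  obtain ⟨S, hS⟩ : ∃ S : ℕ → Finset ι, S = fun k : ℕ =>
    Finset.univ.filter fun j => |E j - (α + (3 * k + 3 / 2) * w)| ≤ w := ⟨_, rfl⟩
  have hdisj : ∀ k ∈ Finset.range n, ∀ l ∈ Finset.range n, k ≠ l → Disjoint (S k) (S l) := by
    intro k _ l _ hkl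
    rw [Finset.disjoint_left]
    intro j hj hj'
    rw [hS, Finset.mem_filter] at hj hj'
    have e1 := abs_le.1 hj.2
    have e2 := abs_le.1 hj'.2
    rcases Nat.lt_or_gt_of_ne hkl with hlt | hlt
    · have e3 : (k : ℝ) + 1 ≤ l := by exact_mod_cast hlt
      nlinarith [e1.1, e1.2, e2.1, e2.2]
    · have e3 : (l : ℝ) + 1 ≤ k := by exact_mod_cast hlt
      nlinarith [e1.1, e1.2, e2.1, e2.2]
  have hsub : (Finset.range n).biUnion S ⊆ Finset.univ.filter fun j => α ≤ E j ∧ E j ≤ β := by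
    intro j hj
    obtain ⟨k, hk, hjk⟩ := Finset.mem_biUnion.1 hj
    rw [hS, Finset.mem_filter] at hjk
    have e1 := abs_le.1 hjk.2
    have e3 : (k : ℝ) + 1 ≤ n := by exact_mod_cast Finset.mem_range.1 hk
    have e4 : (0 : ℝ) ≤ k := Nat.cast_nonneg k
    refine Finset.mem_filter.2 ⟨Finset.mem_univ _, ?_, ?_⟩
    · nlinarith [e1.1, e1.2]
    · nlinarith [e1.1, e1.2]
  have hcard := Finset.card_le_card hsub
  rw [Finset.card_biUnion hdisj] at hcard
  have hcard' : (∑ k ∈ Finset.range n, ((S k).card : ℝ)) ≤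
      ((Finset.univ.filter fun j => α ≤ E j ∧ E j ≤ β).card : ℝ) := by exact_mod_cast hcard
  have h8 : (n : ℝ) * (A * w) ≤ ∑ k ∈ Finset.range n, ((S k).card : ℝ) := by
    have h9 : ∑ k ∈ Finset.range n, (A * w) ≤ ∑ k ∈ Finset.range n, ((S k).card : ℝ) := by
      refine Finset.sum_le_sum fun k hk => ?_
      have e3 : (k : ℝ) + 1 ≤ n := by exact_mod_cast Finset.mem_range.1 hk
      have e4 : (0 : ℝ) ≤ k := Nat.cast_nonneg k
      rw [hS]
      exact h _ (by nlinarith) (by nlinarith)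
    rw [Finset.sum_const, Finset.card_range, nsmul_eq_mul] at h9
    exact h9
  calc A / 6 * (β - α) ≤ A / 6 * (6 * (n * w)) := by gcongr
    _ = n * (A * w) := by ring
    _ ≤ _ := h8.trans hcard'

/-- upper bound for the number of points of an interval with a property -/
theorem upper {ι : Type} [Fintype ι] (E : ι → ℝ) (Q : ι → Prop) [DecidablePred Q]
    (w B α β : ℝ) (hw : 0 < w) (hB : 0 ≤ B) (hαβ : α + w ≤ β)
    (h : ∀ e, α ≤ e → e ≤ β →
      ((Finset.univ.filter fun j => |E j - e| ≤ w ∧ Q j).card : ℝ) ≤ B * w) :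
    ((Finset.univ.filter fun j => (α ≤ E j ∧ E j ≤ β) ∧ Q j).card : ℝ) ≤ 2 * B * (β - α) := by
  classical
  obtain ⟨n, hn⟩ : ∃ n : ℕ, n = ⌊(β - α) / w⌋₊ := ⟨_, rfl⟩
  have h1 : (n : ℝ) * w ≤ β - α := by
    have h2 : (n : ℝ) ≤ (β - α) / w := by
      rw [hn]
      exact Nat.floor_le (div_nonneg (by linarith) hw.le)
    rwa [le_div_iff₀ hw] at h2
  have hsub : (Finset.univ.filter fun j => (α ≤ E j ∧ E j ≤ β) ∧ Q j) ⊆
      (Finset.range (n + 1)).biUnion fun k : ℕ =>
        Finset.univ.filter fun j => |E j - (α + k * w)| ≤ w ∧ Q j := by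
    intro j hj
    obtain ⟨-, ⟨e1, e2⟩, e3⟩ := Finset.mem_filter.1 hj
    have e4 : 0 ≤ (E j - α) / w := div_nonneg (by linarith) hw.le
    have e5 := Nat.floor_le e4
    have e6 := Nat.lt_floor_add_one ((E j - α) / w)
    rw [le_div_iff₀ hw] at e5
    rw [div_lt_iff₀ hw] at e6
    refine Finset.mem_biUnion.2 ⟨⌊(E j - α) / w⌋₊, ?_, ?_⟩
    · rw [Finset.mem_range, Nat.lt_succ_iff, hn]
      exact Nat.floor_le_floor (by gcongr)
    · refine Finset.mem_filter.2 ⟨Finset.mem_univ _, abs_le.2 ⟨?_, ?_⟩, e3⟩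
      · linarith
      · linarith
  have hcard := (Finset.card_le_card hsub).trans Finset.card_biUnion_le
  have hcard' : ((Finset.univ.filter fun j => (α ≤ E j ∧ E j ≤ β) ∧ Q j).card : ℝ) ≤
      ∑ k ∈ Finset.range (n + 1),
        ((Finset.univ.filter fun j => |E j - (α + k * w)| ≤ w ∧ Q j).card : ℝ) := by
    exact_mod_cast hcard
  refine hcard'.trans ?_
  have h9 : ∑ k ∈ Finset.range (n + 1),
      ((Finset.univ.filter fun j => |E j - (α + k * w)| ≤ w ∧ Q j).card : ℝ) ≤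
      ∑ k ∈ Finset.range (n + 1), (B * w) := by
    refine Finset.sum_le_sum fun k hk => ?_
    have e3 : (k : ℝ) ≤ n := by exact_mod_cast Nat.lt_succ_iff.1 (Finset.mem_range.1 hk)
    have e4 : (0 : ℝ) ≤ k := Nat.cast_nonneg k
    exact h _ (by nlinarith) (by nlinarith)
  refine h9.trans ?_
  rw [Finset.sum_const, Finset.card_range, nsmul_eq_mul]
  push_cast
  calc ((n : ℝ) + 1) * (B * w) = B * (n * w + w) := by ring
    _ ≤ B * (2 * (β - α)) := by
        gcongr
        linarith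
    _ = _ := by ring

end Pool.Agent.H189.Loc
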